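import Pool.Agent.W5h2.GP.Reg

/-!
# Regular systems of subgroups: the quotients of the filtration
-/

set_option autoImplicit false

namespace Pool.Agent.W5h2.GP

open Pool.Agent.Y110.FJ
open Pool.Agent.R941.FJ (C_equiv C_le C_cyc mem_sup_normal IsRdp)
open Pool.Agent.R684.FP (NC Rel Dat sg sg_spec sg_inj sg_mul sg_M Ct cyc_real)
open Pool.Agent.Y462.SS (Closed)

variable {C : ∀ (G : Type) [Group G], Prop}

section rdpset

variable {Γ : Type} [Group Γ]

/-- the action by conjugation on an invariant set of subgroups -/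
@[instance_reducible] def cjAct (𝒦 : Set (Subgroup Γ))
    (h : ∀ D ∈ 𝒦, ∀ g : Γ, D.map (MulAut.conj g).toMonoidHom ∈ 𝒦) : MulAction Γ 𝒦 where
  smul g D := ⟨D.1.map (MulAut.conj g).toMonoidHom, h D.1 D.2 g⟩
  one_smul D := by
    apply Subtype.ext
    show D.1.map (MulAut.conj (1 : Γ)).toMonoidHom = D.1
    ext x
    constructor
    · rintro ⟨y, hy, rfl⟩
      simpa using hy
    · intro hx
      exact ⟨x, hx, by simp⟩
  mul_smul g g' D := by
    apply Subtype.ext
    show D.1.map (MulAut.conj (g * g')).toMonoidHom =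
      (D.1.map (MulAut.conj g').toMonoidHom).map (MulAut.conj g).toMonoidHom
    rw [Subgroup.map_map]
    congr 1
    ext x
    simp

/-- **extensions by restricted direct products**, for a set of subgroups permuted by conjugation -/
theorem rdp_set (hC : ClosedE C) (L : Subgroup Γ) [L.Normal] (𝒦 : Set (Subgroup Γ))
    (hinv : ∀ D ∈ 𝒦, ∀ g : Γ, D.map (MulAut.conj g).toMonoidHom ∈ 𝒦)
    (hsup : ⨆ D : 𝒦, D.1 = L)
    (hcomm : ∀ D ∈ 𝒦, ∀ D' ∈ 𝒦, D ≠ D' → ∀ x ∈ D, ∀ y ∈ D', x * y = y * x)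
    (hind : ∀ D ∈ 𝒦, ∃ M : Subgroup Γ, D ⊓ M = ⊥ ∧ ∀ D' ∈ 𝒦, D' ≠ D → D' ≤ M)
    (hfac : ∀ D ∈ 𝒦, ∀ g : Γ, (∀ x, x ∈ D ↔ g * x * g⁻¹ ∈ D) → C ↥(D ⊔ Subgroup.zpowers g))
    (hQ : C (Γ ⧸ L)) : C Γ := by
  let _ := cjAct 𝒦 hinv
  refine Pool.Agent.R941.FJ.rdp (N := L) (K := fun D : 𝒦 => D.1) hC ?_ ?_ hQ
  · refine ⟨hsup, ?_, ?_, ?_⟩
    · intro i j hij x hx y hy
      exact hcomm i.1 i.2 j.1 j.2 (fun h => hij (Subtype.ext h)) x hx y hy
    · intro i
      obtain ⟨M, hM, hM'⟩ := hind i.1 i.2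
      rw [eq_bot_iff, ← hM]
      refine inf_le_inf le_rfl ?_
      refine iSup₂_le fun j hj => hM' j.1 j.2 (fun h => hj (Subtype.ext h))
    · intro g i x hx
      exact ⟨x, hx, rfl⟩
  · intro i g hgi
    have h1 : i.1.map (MulAut.conj g).toMonoidHom = i.1 := congrArg Subtype.val hgi
    refine hfac i.1 i.2 g fun x => ⟨fun hx => ?_, fun hx => ?_⟩
    · have : g * x * g⁻¹ ∈ i.1.map (MulAut.conj g).toMonoidHom := ⟨x, hx, rfl⟩
      rwa [h1] at this
    · rw [← h1] at hx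
      obtain ⟨y, hy, hyx⟩ := hx
      have h2 : g * y * g⁻¹ = g * x * g⁻¹ := hyx
      have h3 : y = x := by
        have := mul_right_cancel h2
        exact mul_left_cancel this
      rwa [← h3]

/-- all mapping tori of the group `D` are in `C` -/
def Tori (C : ∀ (G : Type) [Group G], Prop) (D : Type) [Group D] : Prop :=
  ∀ α : MulAut D, C (D ⋊[zpowersHom (MulAut D) α] Multiplicative ℤ)

/-- the automorphism of a subgroup given by a conjugation -/
def cjAut (D : Subgroup Γ) (g : Γ) (hg : ∀ x, x ∈ D ↔ g * x * g⁻¹ ∈ D) : MulAut D where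
  toFun x := ⟨g * x * g⁻¹, (hg x).1 x.2⟩
  invFun x := ⟨g⁻¹ * x * g, (hg _).2 (by
    have : g * (g⁻¹ * (x : Γ) * g) * g⁻¹ = x := by group
    rw [this]; exact x.2)⟩
  left_inv x := by
    apply Subtype.ext
    show g⁻¹ * (g * (x : Γ) * g⁻¹) * g = x
    group
  right_inv x := by
    apply Subtype.ext
    show g * (g⁻¹ * (x : Γ) * g) * g⁻¹ = x
    group
  map_mul' x y := by
    apply Subtype.ext
    show g * ((x : Γ) * y) * g⁻¹ = g * x * g⁻¹ * (g * y * g⁻¹)
    group

/-- a cyclic extension of a subgroup all of whose mapping tori are in the class -/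
theorem tori_cyc (hC : ClosedE C) {H : Type} [Group H] (hH : Tori C H) (D : Subgroup Γ)
    (e : D ≃* H) (g : Γ) (hg : ∀ x, x ∈ D ↔ g * x * g⁻¹ ∈ D) : C ↥(D ⊔ Subgroup.zpowers g) := by
  obtain ⟨α, hα⟩ : ∃ α : MulAut H, α = (e.symm.trans (cjAut D g hg)).trans e := ⟨_, rfl⟩
  refine cyc_real hC D g hg
    ((SemidirectProduct.inl (φ := zpowersHom (MulAut H) α)).comp e.toMonoidHom) ?_
    (SemidirectProduct.inr (Multiplicative.ofAdd 1)) ?_ (hH α)
  · exact SemidirectProduct.inl_injective.comp e.injective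
  · intro x y hxy
    have h1 : y = cjAut D g hg x := Subtype.ext hxy
    show SemidirectProduct.inl (e y) = SemidirectProduct.inr (Multiplicative.ofAdd 1) *
      SemidirectProduct.inl (e x) * (SemidirectProduct.inr (Multiplicative.ofAdd 1))⁻¹
    rw [← map_inv, ← SemidirectProduct.inl_aut]
    congr 1
    rw [zpowersHom_apply, toAdd_ofAdd, zpow_one, hα, h1]
    show e (cjAut D g hg x) = e (cjAut D g hg (e.symm (e x)))
    rw [e.symm_apply_apply]

end rdpset

section step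

variable {G I : Type} [Group G] {N : Subgroup G} {B : I → Subgroup G}

variable (N B) in
/-- the elements of `Gen B S` which vanish as soon as one of the subgroups `B i`, `i ∈ S`, is
factored out -/
def Mix (S : Set I) : Subgroup G := Gen B S ⊓ ⨅ i, ⨅ _ : i ∈ S, Oth N B (S \ {i})

theorem mem_Mix {S : Set I} {x : G} : x ∈ Mix N B S ↔ x ∈ Gen B S ∧
    ∀ i ∈ S, x ∈ Oth N B (S \ {i}) := by
  simp only [Mix, Subgroup.mem_inf, Subgroup.mem_iInf]

theorem Mix_sub (S T : Finset I) (hTS : T ⊆ S) (hne : T ≠ S) {x : G}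
    (hx : x ∈ Mix N B (S : Set I)) : x ∈ Oth N B (T : Set I) := by
  rw [mem_Mix] at hx
  obtain ⟨i, hi, hiT⟩ : ∃ i ∈ S, i ∉ T := by
    by_contra h
    push Not at h
    exact hne (Finset.Subset.antisymm hTS h)
  refine Oth_anti ?_ (hx.2 i hi)
  intro j hj
  exact ⟨hTS hj, fun h => hiT (by rw [Set.mem_singleton_iff] at h; exact h ▸ hj)⟩

theorem Mix_le_DT (hB : ∀ i, B i ≤ N) (h : Ind N B) (S : Finset I) :
    Mix N B (S : Set I) ≤ DT N B S := by
  intro x hx
  refine comp_DT hB h (mem_Mix.1 hx).1 (one_mem (Oth N B (S : Set I))) fun T hT hne => ?_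
  rw [mul_one]
  exact Mix_sub S T hT hne hx

theorem DT_dec (hsup : ⨆ i, B i = N) (h : Ind N B) {m : ℕ} {S : Finset I} (hS : S.card = m + 1)
    {x : G} (hx : x ∈ DT N B S) : ∃ b ∈ Mix N B (S : Set I), ∃ l ∈ K N B (m + 1), x = b * l := by
  classical
  have hB : ∀ i, B i ≤ N := fun i => hsup ▸ le_iSup B i
  have hx' := mem_DT.1 hx
  obtain ⟨D, hD⟩ := ex_fin hsup hx'.1
  obtain ⟨b, hb, l, hl, hbl⟩ := dec_rel (N := N) hB (D : Set I) (S : Set I) hD
  have hb' : b ∈ Gen B (S : Set I) := Gen_mono Set.inter_subset_left hb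
  have hbT : ∀ T : Finset I, T ⊆ S → T ≠ S → b ∈ Oth N B (T : Set I) := by
    intro T hT hne
    have h1 := hx'.2 T (Finset.card_le_card hT) hne
    rw [hbl] at h1
    have h2 : l ∈ Oth N B (T : Set I) := Oth_anti (by exact_mod_cast hT) hl
    have := mul_mem h1 (inv_mem h2)
    rwa [mul_inv_cancel_right] at this
  have hbM : b ∈ Mix N B (S : Set I) := by
    rw [mem_Mix]
    refine ⟨hb', fun i hi => ?_⟩
    have hi' : i ∈ S := by exact_mod_cast hi
    have h1 := hbT (S.erase i) (Finset.erase_subset i S) (fun he => by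
      have := Finset.notMem_erase i S
      rw [he] at this
      exact this hi')
    rwa [Finset.coe_erase] at h1
  refine ⟨b, hbM, l, ?_, hbl⟩
  have hbD := mem_DT.1 (Mix_le_DT hB h S hbM)
  rw [mem_K]
  have hlx : l = b⁻¹ * x := by rw [hbl]; group
  refine ⟨Oth_le hB _ hl, fun T hT => ?_⟩
  by_cases hTS : T = S
  · rw [hTS]; exact hl
  · rw [hlx]
    exact mul_mem (inv_mem (hbD.2 T (by omega) hTS)) (hx'.2 T (by omega) hTS)

/-- the factor of the filtration is the mixed part -/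
theorem mix_equiv (hsup : ⨆ i, B i = N) (h : Ind N B) {m : ℕ} {S : Finset I} (hS : S.card = m + 1)
    [(K N B (m + 1)).Normal] :
    Nonempty (((DT N B S).map (QuotientGroup.mk' (K N B (m + 1)))) ≃* Mix N B (S : Set I)) := by
  have hB : ∀ i, B i ≤ N := fun i => hsup ▸ le_iSup B i
  obtain ⟨π, hπ⟩ : ∃ π : G →* G ⧸ K N B (m + 1), π = QuotientGroup.mk' (K N B (m + 1)) := ⟨_, rfl⟩
  rw [← hπ]
  have hπ1 : ∀ x : G, π x = 1 ↔ x ∈ K N B (m + 1) := by
    intro x
    rw [hπ]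
    exact QuotientGroup.eq_one_iff x
  let f : Mix N B (S : Set I) →* (DT N B S).map π :=
    (π.comp (Mix N B (S : Set I)).subtype).codRestrict _ fun x =>
      ⟨x, Mix_le_DT hB h S x.2, rfl⟩
  have hf : Function.Bijective f := by
    constructor
    · rw [injective_iff_map_eq_one]
      intro x hx
      have h1 : π x = 1 := congrArg Subtype.val hx
      rw [hπ1, mem_K] at h1
      exact Subtype.ext (h.eq_one (mem_Mix.1 x.2).1 (h1.2 S hS.le))
    · rintro ⟨_, x, hx, rfl⟩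
      obtain ⟨b, hb, l, hl, hbl⟩ := DT_dec hsup h hS hx
      refine ⟨⟨b, hb⟩, Subtype.ext ?_⟩
      show π b = π x
      rw [hbl, map_mul, (hπ1 l).2 hl, mul_one]
  exact ⟨(MulEquiv.ofBijective f hf).symm⟩

/-- one step -/
theorem quo_step (hC : ClosedE C) (d : Dat N B) (h : Ind N B) (m : ℕ)
    [hn0 : (K N B m).Normal] [hn : (K N B (m + 1)).Normal]
    (hfac : ∀ S : Finset I, S.card = m + 1 → ∀ g : G ⧸ K N B (m + 1),
      (∀ x, x ∈ (DT N B S).map (QuotientGroup.mk' (K N B (m + 1))) ↔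
        g * x * g⁻¹ ∈ (DT N B S).map (QuotientGroup.mk' (K N B (m + 1)))) →
      C ↥((DT N B S).map (QuotientGroup.mk' (K N B (m + 1))) ⊔ Subgroup.zpowers g))
    (hQ : C (G ⧸ K N B m)) : C (G ⧸ K N B (m + 1)) := by
  classical
  have hN := d.nor
  have hB : ∀ i, B i ≤ N := d.le
  obtain ⟨π, hπ⟩ : ∃ π : G →* G ⧸ K N B (m + 1), π = QuotientGroup.mk' (K N B (m + 1)) := ⟨_, rfl⟩
  rw [← hπ] at hfac
  have hπe : ∀ x y : G, π x = π y ↔ x⁻¹ * y ∈ K N B (m + 1) := by
    intro x y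
    rw [hπ]
    exact QuotientGroup.eq
  have hπ1 : ∀ x : G, π x = 1 ↔ x ∈ K N B (m + 1) := by
    intro x
    rw [hπ]
    exact QuotientGroup.eq_one_iff x
  have hπs : Function.Surjective π := by rw [hπ]; exact QuotientGroup.mk'_surjective _
  have hLn : ((K N B m).map π).Normal := Subgroup.Normal.map inferInstance π hπs
  refine rdp_set hC ((K N B m).map π)
    {D | ∃ S : Finset I, S.card = m + 1 ∧ D = (DT N B S).map π} ?_ ?_ ?_ ?_ ?_ ?_
  · -- invariance
    rintro _ ⟨S, hS, rfl⟩ g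
    obtain ⟨a, rfl⟩ := hπs g
    have hinj : Function.Injective (sg d a) := fun i j h => sg_inj d a h
    refine ⟨S.image (sg d a), by rw [Finset.card_image_of_injective S hinj, hS], ?_⟩
    apply le_antisymm
    · rintro _ ⟨_, ⟨x, hx, rfl⟩, rfl⟩
      refine ⟨a * x * a⁻¹, DT_conj d a S hx, ?_⟩
      show π (a * x * a⁻¹) = π a * π x * (π a)⁻¹
      rw [map_mul, map_mul, map_inv]
    · rintro _ ⟨y, hy, rfl⟩
      have h1 := DT_conj d a⁻¹ _ hy
      have h2 : ((S.image (sg d a)).image (sg d a⁻¹)) = S := by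
        have := image_sg d a⁻¹ S
        rwa [inv_inv] at this
      rw [h2, inv_inv] at h1
      refine ⟨π (a⁻¹ * y * a), ⟨_, h1, rfl⟩, ?_⟩
      show π a * π (a⁻¹ * y * a) * (π a)⁻¹ = π y
      rw [← map_mul, ← map_inv, ← map_mul]
      congr 1
      group
  · -- generation
    apply le_antisymm
    · refine iSup_le ?_
      rintro ⟨_, S, hS, rfl⟩
      exact Subgroup.map_mono (DT_le_K hS)
    · rintro _ ⟨x, hx, rfl⟩
      obtain ⟨z, hz, y, hy, hxy⟩ := gen_K d.sup h m hx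
      rw [hxy, map_mul, (hπ1 y).2 hy, mul_one]
      have h1 : (⨆ S : {S : Finset I // S.card = m + 1}, DT N B S.1) ≤
          (⨆ D : {D | ∃ S : Finset I, S.card = m + 1 ∧ D = (DT N B S).map π}, D.1).comap π := by
        refine iSup_le fun S => ?_
        rw [← Subgroup.map_le_iff_le_comap]
        exact le_iSup (fun D : {D | ∃ S : Finset I, S.card = m + 1 ∧ D = (DT N B S).map π} => D.1)
          ⟨_, S.1, S.2, rfl⟩
      exact h1 hz
  · -- commutation
    rintro _ ⟨S, hS, rfl⟩ _ ⟨S', hS', rfl⟩ hne _ ⟨x, hx, rfl⟩ _ ⟨y, hy, rfl⟩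
    have h1 := DT_comm (hS.trans hS'.symm) (fun he => hne (by rw [he])) hx hy
    rw [hS] at h1
    rw [← map_mul, ← map_mul, eq_comm, hπe]
    exact h1
  · -- independence
    rintro _ ⟨S, hS, rfl⟩
    refine ⟨(Oth N B (S : Set I)).map π, ?_, ?_⟩
    · rw [eq_bot_iff]
      rintro _ ⟨⟨x, hx, rfl⟩, y, hy, hyx⟩
      rw [Subgroup.mem_bot, hπ1]
      have h1 : y⁻¹ * x ∈ K N B (m + 1) := (hπe y x).1 hyx
      have h2 : x ∈ Oth N B (S : Set I) := by
        have := mul_mem hy ((mem_K.1 h1).2 S hS.le)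
        rwa [mul_inv_cancel_left] at this
      have hx' := mem_DT.1 hx
      rw [mem_K]
      refine ⟨hx'.1, fun T hT => ?_⟩
      by_cases hTS : T = S
      · rw [hTS]; exact h2
      · exact hx'.2 T (by omega) hTS
    · rintro _ ⟨S', hS', rfl⟩ hne
      refine Subgroup.map_mono fun x hx => ?_
      exact (mem_DT.1 hx).2 S (by omega) (fun he => hne (by rw [he]))
  · -- the factors
    rintro _ ⟨S, hS, rfl⟩ g hg
    exact hfac S hS g hg
  · -- the quotient
    have hle : K N B (m + 1) ≤ K N B m := K_anti (Nat.le_succ m)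
    subst hπ
    exact C_equiv hC.base (QuotientGroup.quotientQuotientEquivQuotient _ _ hle) hQ

end step

end Pool.Agent.W5h2.GP
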