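import Pool.Agent.W5h2.GP.Main
import Pool.Agent.W5h2.GP.Ker

/-!
# Extensions by graph products
-/

set_option autoImplicit false

namespace Pool.Agent.W5h2.GP

open Pool.Agent.Y110.FJ
open Pool.Agent.R941.FJ (C_equiv C_le C_cyc mem_sup_normal IsRdp)
open Pool.Agent.R684.FP (FbC free_cyc)
open Pool.Agent.Y462.SS (Closed)

variable {C : ∀ (G : Type) [Group G], Prop}

/-- `N` is the internal graph product, over the graph `Λ`, of its subgroups `A i`: it is generated by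
them, adjacent ones commute, and homomorphisms of the `A i` to a group `H` for which the images of
adjacent ones commute extend to `N`. -/
structure IsGraphProd {G I : Type} [Group G] (Λ : SimpleGraph I) (N : Subgroup G)
    (A : I → Subgroup G) : Prop where
  sup : ⨆ i, A i = N
  comm : ∀ i j, Λ.Adj i j → ∀ x ∈ A i, ∀ y ∈ A j, x * y = y * x
  univ : ∀ (H : Type) [Group H] (f : ∀ i, A i →* H),
    (∀ i j, Λ.Adj i j → ∀ (x : A i) (y : A j), f i x * f j y = f j y * f i x) →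
    ∃ φ : N →* H, ∀ (i : I) (x : A i) (hx : (x : G) ∈ N), φ ⟨x, hx⟩ = f i x

section gp

variable {G I : Type} [Group G] {Λ : SimpleGraph I} {N : Subgroup G} {A : I → Subgroup G}

theorem IsGraphProd.le (h : IsGraphProd Λ N A) (i : I) : A i ≤ N := h.sup ▸ le_iSup A i

/-- induction for `Gen` -/
theorem Gen_ind {S : Set I} {p : G → Prop} (h : ∀ i ∈ S, ∀ x ∈ A i, p x) (h1 : p 1)
    (hmul : ∀ x y, p x → p y → p (x * y)) (hinv : ∀ x, p x → p x⁻¹) {x : G} (hx : x ∈ Gen A S) :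
    p x := by
  have h2 : Gen A S ≤ ({ carrier := {x | p x}
                         one_mem' := h1
                         mul_mem' := fun {x y} hx hy => hmul x y hx hy
                         inv_mem' := fun {x} hx => hinv x hx } : Subgroup G) :=
    iSup₂_le fun i hi x hx => h i hi x hx
  exact h2 hx

/-- homomorphisms which agree on the subgroups `A i`, `i ∈ S`, agree on `Gen A S` -/
theorem hom_Gen {H : Type} [Group H] {S : Set I} (φ ψ : N →* H)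
    (h : ∀ i ∈ S, ∀ x (_ : x ∈ A i) (hx : x ∈ N), φ ⟨x, hx⟩ = ψ ⟨x, hx⟩) (hle : ∀ i, A i ≤ N)
    {x : G} (hx : x ∈ Gen A S) (hxN : x ∈ N) : φ ⟨x, hxN⟩ = ψ ⟨x, hxN⟩ := by
  have h2 : ∃ hxN : x ∈ N, φ ⟨x, hxN⟩ = ψ ⟨x, hxN⟩ := by
    refine Gen_ind (p := fun x => ∃ hxN : x ∈ N, φ ⟨x, hxN⟩ = ψ ⟨x, hxN⟩) ?_ ?_ ?_ ?_ hx
    · intro i hi x hx
      exact ⟨hle i hx, h i hi x hx _⟩
    · refine ⟨one_mem _, ?_⟩
      exact (map_one φ).trans (map_one ψ).symm
    · rintro x y ⟨hx, h1⟩ ⟨hy, h2⟩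
      refine ⟨mul_mem hx hy, ?_⟩
      have h3 : (⟨x * y, mul_mem hx hy⟩ : N) = ⟨x, hx⟩ * ⟨y, hy⟩ := rfl
      rw [h3, map_mul, map_mul, h1, h2]
    · rintro x ⟨hx, h1⟩
      refine ⟨inv_mem hx, ?_⟩
      have h3 : (⟨x⁻¹, inv_mem hx⟩ : N) = ⟨x, hx⟩⁻¹ := rfl
      rw [h3, map_inv, map_inv, h1]
  exact h2.2

/-- a homomorphism which vanishes on the `A j` with `j ∉ S` vanishes on `Oth N A S` -/
theorem hom_Oth {H : Type} [Group H] {S : Set I} (φ : N →* H)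
    (h : ∀ i, i ∉ S → ∀ x (_ : x ∈ A i) (hx : x ∈ N), φ ⟨x, hx⟩ = 1) (hle : ∀ i, A i ≤ N)
    {x : G} (hx : x ∈ Oth N A S) (hxN : x ∈ N) : φ ⟨x, hxN⟩ = 1 := by
  have h1 : Oth N A S ≤ φ.ker.map N.subtype := by
    rw [Oth, Subgroup.closure_le]
    rintro _ ⟨j, hj, m, hm, b, hb, rfl⟩
    refine ⟨⟨m, hm⟩ * ⟨b, hle j hb⟩ * ⟨m, hm⟩⁻¹, ?_, rfl⟩
    show φ (⟨m, hm⟩ * ⟨b, hle j hb⟩ * ⟨m, hm⟩⁻¹) = 1
    rw [map_mul, map_mul, h j hj b hb, map_inv, mul_one, mul_inv_cancel]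
  obtain ⟨y, hy, hyx⟩ := h1 hx
  have h2 : y = ⟨x, hxN⟩ := Subtype.ext hyx
  rw [← h2]
  exact hy

open Classical in
/-- the retraction onto the part `S` -/
theorem IsGraphProd.retr (h : IsGraphProd Λ N A) (S : Set I) : ∃ e : N →* N,
    (∀ i ∈ S, ∀ x (_ : x ∈ A i) (hx : x ∈ N), e ⟨x, hx⟩ = ⟨x, hx⟩) ∧
    (∀ i, i ∉ S → ∀ x (_ : x ∈ A i) (hx : x ∈ N), e ⟨x, hx⟩ = 1) := by
  obtain ⟨φ, hφ⟩ := h.univ N (fun i => if i ∈ S then Subgroup.inclusion (h.le i) else 1) (by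
    intro i j hij x y
    by_cases hi : i ∈ S
    · by_cases hj : j ∈ S
      · rw [if_pos hi, if_pos hj]
        exact Subtype.ext (h.comm i j hij x x.2 y y.2)
      · rw [if_neg hj]
        simp
    · rw [if_neg hi]
      simp)
  refine ⟨φ, fun i hi x hx hxN => ?_, fun i hi x hx hxN => ?_⟩
  · have := hφ i ⟨x, hx⟩ hxN
    rw [if_pos hi] at this
    exact this
  · have := hφ i ⟨x, hx⟩ hxN
    rw [if_neg hi] at this
    exact this

theorem gp_ind (h : IsGraphProd Λ N A) (S : Set I) : Gen A S ⊓ Oth N A S = ⊥ := by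
  rw [eq_bot_iff]
  rintro x ⟨hx1, hx2⟩
  obtain ⟨e, he1, he2⟩ := h.retr S
  have hxN : x ∈ N := Gen_le h.le S hx1
  have h1 : e ⟨x, hxN⟩ = ⟨x, hxN⟩ := hom_Gen e (MonoidHom.id N) he1 h.le hx1 hxN
  have h2 : e ⟨x, hxN⟩ = 1 := hom_Oth e he2 h.le hx2 hxN
  rw [h2] at h1
  rw [Subgroup.mem_bot]
  exact (congrArg Subtype.val h1).symm

/-- the decomposition of a graph product as an amalgamated product -/
theorem gp_amg (h : IsGraphProd Λ N A) (v : I) :
    Amg (G := N) ((Gen A {v}ᶜ).subgroupOf N) ((A v ⊔ Gen A (Λ.neighborSet v)).subgroupOf N)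
      ((Gen A (Λ.neighborSet v)).subgroupOf N) := by
  classical
  have hnb : Λ.neighborSet v ⊆ {v}ᶜ := by
    intro j hj hjv
    rw [Set.mem_singleton_iff] at hjv
    subst hjv
    exact Λ.irrefl hj
  have hle1 : Gen A (Λ.neighborSet v) ≤ Gen A {v}ᶜ := Gen_mono hnb
  refine ⟨?_, ?_, ?_, ?_⟩
  · exact Subgroup.comap_mono hle1
  · exact Subgroup.comap_mono le_sup_right
  · rw [eq_top_iff]
    rintro ⟨x, hx⟩ _
    have hx' := hx
    have h1 : x ∈ Gen A Set.univ := by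
      have h0 : N ≤ Gen A Set.univ := by
        conv_lhs => rw [← h.sup]
        exact iSup_le fun i => le_Gen (Set.mem_univ i)
      exact h0 hx
    have h2 : ∃ hx : x ∈ N, (⟨x, hx⟩ : N) ∈ (Gen A {v}ᶜ).subgroupOf N ⊔
        (A v ⊔ Gen A (Λ.neighborSet v)).subgroupOf N := by
      refine Gen_ind (p := fun x => ∃ hx : x ∈ N, (⟨x, hx⟩ : N) ∈ (Gen A {v}ᶜ).subgroupOf N ⊔
        (A v ⊔ Gen A (Λ.neighborSet v)).subgroupOf N) ?_ ?_ ?_ ?_ h1
      · intro i _ x hx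
        refine ⟨h.le i hx, ?_⟩
        by_cases hiv : i = v
        · subst hiv
          exact Subgroup.mem_sup_right (Subgroup.mem_subgroupOf.2 (Subgroup.mem_sup_left hx))
        · exact Subgroup.mem_sup_left (Subgroup.mem_subgroupOf.2 (le_Gen (S := {v}ᶜ) hiv hx))
      · exact ⟨one_mem _, one_mem _⟩
      · rintro x y ⟨hx, h1⟩ ⟨hy, h2⟩
        exact ⟨mul_mem hx hy, mul_mem h1 h2⟩
      · rintro x ⟨hx, h1⟩
        exact ⟨inv_mem hx, inv_mem h1⟩
    exact h2.2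
  · intro H _ f g hfg
    -- the homomorphisms on the factors
    have hA1 : ∀ i, i ≠ v → A i ≤ (Gen A {v}ᶜ) := fun i hi => le_Gen (S := {v}ᶜ) hi
    obtain ⟨φ, hφ⟩ := h.univ H (fun i => if hi : i = v then
        g.comp ((Subgroup.inclusion (h.le i)).codRestrict _ fun x =>
          Subgroup.mem_subgroupOf.2 (Subgroup.mem_sup_left (hi ▸ x.2)))
        else f.comp ((Subgroup.inclusion (h.le i)).codRestrict _ fun x =>
          Subgroup.mem_subgroupOf.2 (hA1 i hi x.2))) (by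
      have key : ∀ j, ∀ hj : Λ.Adj v j, ∀ (x : A v) (y : A j),
          g ⟨⟨x, h.le v x.2⟩, Subgroup.mem_subgroupOf.2 (Subgroup.mem_sup_left x.2)⟩ *
          f ⟨⟨y, h.le j y.2⟩, Subgroup.mem_subgroupOf.2 (hle1 (le_Gen (S := Λ.neighborSet v)
            hj y.2))⟩ =
          f ⟨⟨y, h.le j y.2⟩, Subgroup.mem_subgroupOf.2 (hle1 (le_Gen (S := Λ.neighborSet v)
            hj y.2))⟩ *
          g ⟨⟨x, h.le v x.2⟩, Subgroup.mem_subgroupOf.2 (Subgroup.mem_sup_left x.2)⟩ := by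
        intro j hj x y
        have h1 := hfg ⟨y, h.le j y.2⟩ (Subgroup.mem_subgroupOf.2 (le_Gen (S := Λ.neighborSet v)
          hj y.2))
        rw [h1, ← map_mul, ← map_mul]
        congr 1
        exact Subtype.ext (Subtype.ext (h.comm v j hj x x.2 y y.2))
      intro i j hij x y
      by_cases hi : i = v
      · subst hi
        have hj : j ≠ i := fun hj => by subst hj; exact Λ.irrefl hij
        rw [dif_pos rfl, dif_neg hj]
        exact key j hij x y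
      · by_cases hj : j = v
        · subst hj
          rw [dif_neg hi, dif_pos rfl]
          exact (key i hij.symm y x).symm
        · rw [dif_neg hi, dif_neg hj]
          show f _ * f _ = f _ * f _
          rw [← map_mul, ← map_mul]
          congr 1
          exact Subtype.ext (Subtype.ext (h.comm i j hij x x.2 y y.2)))
    have hφ1 : ∀ i (hi : i ≠ v) (x : G) (hx : x ∈ A i), φ ⟨x, h.le i hx⟩ =
        f ⟨⟨x, h.le i hx⟩, Subgroup.mem_subgroupOf.2 (hA1 i hi hx)⟩ := by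
      intro i hi x hx
      have := hφ i ⟨x, hx⟩ (h.le i hx)
      rw [dif_neg hi] at this
      exact this
    have hφ2 : ∀ (x : G) (hx : x ∈ A v), φ ⟨x, h.le v hx⟩ =
        g ⟨⟨x, h.le v hx⟩, Subgroup.mem_subgroupOf.2 (Subgroup.mem_sup_left hx)⟩ := by
      intro x hx
      have := hφ v ⟨x, hx⟩ (h.le v hx)
      rw [dif_pos rfl] at this
      exact this
    refine ⟨φ, ?_, ?_⟩
    · rintro ⟨⟨x, hxN⟩, hx⟩
      have h2 : ∃ (hx : x ∈ N) (hx' : (⟨x, hx⟩ : N) ∈ (Gen A {v}ᶜ).subgroupOf N),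
          φ ⟨x, hx⟩ = f ⟨⟨x, hx⟩, hx'⟩ := by
        refine Gen_ind (p := fun x => ∃ (hx : x ∈ N) (hx' : (⟨x, hx⟩ : N) ∈
          (Gen A {v}ᶜ).subgroupOf N), φ ⟨x, hx⟩ = f ⟨⟨x, hx⟩, hx'⟩) ?_ ?_ ?_ ?_
          (Subgroup.mem_subgroupOf.1 hx)
        · intro i hi x hx
          exact ⟨h.le i hx, Subgroup.mem_subgroupOf.2 (hA1 i hi hx), hφ1 i hi x hx⟩
        · exact ⟨one_mem _, one_mem _, (map_one φ).trans (map_one f).symm⟩
        · rintro x y ⟨hx, hx', h1⟩ ⟨hy, hy', h2⟩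
          refine ⟨mul_mem hx hy, mul_mem hx' hy', ?_⟩
          have h3 : φ ⟨x * y, mul_mem hx hy⟩ = φ ⟨x, hx⟩ * φ ⟨y, hy⟩ := map_mul φ ⟨x, hx⟩ ⟨y, hy⟩
          rw [h3, h1, h2, ← map_mul]
          rfl
        · rintro x ⟨hx, hx', h1⟩
          refine ⟨inv_mem hx, inv_mem hx', ?_⟩
          have h3 : φ ⟨x⁻¹, inv_mem hx⟩ = (φ ⟨x, hx⟩)⁻¹ := map_inv φ ⟨x, hx⟩
          rw [h3, h1, ← map_inv]
          rfl
      exact h2.2.2
    · rintro ⟨⟨x, hxN⟩, hx⟩
      have hsup : ∀ x ∈ A v ⊔ Gen A (Λ.neighborSet v), ∃ (hx : x ∈ N) (hx' : (⟨x, hx⟩ : N) ∈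
          (A v ⊔ Gen A (Λ.neighborSet v)).subgroupOf N), φ ⟨x, hx⟩ = g ⟨⟨x, hx⟩, hx'⟩ := by
        have hone : ∃ (hx : (1 : G) ∈ N) (hx' : (⟨1, hx⟩ : N) ∈
            (A v ⊔ Gen A (Λ.neighborSet v)).subgroupOf N), φ ⟨1, hx⟩ = g ⟨⟨1, hx⟩, hx'⟩ :=
          ⟨one_mem _, one_mem _, (map_one φ).trans (map_one g).symm⟩
        have hmul : ∀ x y : G, (∃ (hx : x ∈ N) (hx' : (⟨x, hx⟩ : N) ∈
            (A v ⊔ Gen A (Λ.neighborSet v)).subgroupOf N), φ ⟨x, hx⟩ = g ⟨⟨x, hx⟩, hx'⟩) →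
            (∃ (hx : y ∈ N) (hx' : (⟨y, hx⟩ : N) ∈
            (A v ⊔ Gen A (Λ.neighborSet v)).subgroupOf N), φ ⟨y, hx⟩ = g ⟨⟨y, hx⟩, hx'⟩) →
            ∃ (hx : x * y ∈ N) (hx' : (⟨x * y, hx⟩ : N) ∈
            (A v ⊔ Gen A (Λ.neighborSet v)).subgroupOf N), φ ⟨x * y, hx⟩ =
              g ⟨⟨x * y, hx⟩, hx'⟩ := by
          rintro x y ⟨hx, hx', h1⟩ ⟨hy, hy', h2⟩
          refine ⟨mul_mem hx hy, mul_mem hx' hy', ?_⟩
          have h3 : φ ⟨x * y, mul_mem hx hy⟩ = φ ⟨x, hx⟩ * φ ⟨y, hy⟩ := map_mul φ ⟨x, hx⟩ ⟨y, hy⟩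
          rw [h3, h1, h2, ← map_mul]
          rfl
        have hinv : ∀ x : G, (∃ (hx : x ∈ N) (hx' : (⟨x, hx⟩ : N) ∈
            (A v ⊔ Gen A (Λ.neighborSet v)).subgroupOf N), φ ⟨x, hx⟩ = g ⟨⟨x, hx⟩, hx'⟩) →
            ∃ (hx : x⁻¹ ∈ N) (hx' : (⟨x⁻¹, hx⟩ : N) ∈
            (A v ⊔ Gen A (Λ.neighborSet v)).subgroupOf N), φ ⟨x⁻¹, hx⟩ = g ⟨⟨x⁻¹, hx⟩, hx'⟩ := by
          rintro x ⟨hx, hx', h1⟩
          refine ⟨inv_mem hx, inv_mem hx', ?_⟩
          have h3 : φ ⟨x⁻¹, inv_mem hx⟩ = (φ ⟨x, hx⟩)⁻¹ := map_inv φ ⟨x, hx⟩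
          rw [h3, h1, ← map_inv]
          rfl
        have h4 : A v ⊔ Gen A (Λ.neighborSet v) ≤
            ({ carrier := {x | ∃ (hx : x ∈ N) (hx' : (⟨x, hx⟩ : N) ∈
                (A v ⊔ Gen A (Λ.neighborSet v)).subgroupOf N), φ ⟨x, hx⟩ = g ⟨⟨x, hx⟩, hx'⟩}
               one_mem' := hone
               mul_mem' := fun {x y} hx hy => hmul x y hx hy
               inv_mem' := fun {x} hx => hinv x hx } : Subgroup G) := by
          refine sup_le ?_ ?_
          · intro x hx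
            exact ⟨h.le v hx, Subgroup.mem_subgroupOf.2 (Subgroup.mem_sup_left hx), hφ2 x hx⟩
          · intro x hx
            refine Gen_ind (p := fun x => ∃ (hx : x ∈ N) (hx' : (⟨x, hx⟩ : N) ∈
                (A v ⊔ Gen A (Λ.neighborSet v)).subgroupOf N), φ ⟨x, hx⟩ = g ⟨⟨x, hx⟩, hx'⟩)
              ?_ hone hmul hinv hx
            intro i hi x hx
            have hiv : i ≠ v := hnb hi
            have hxg : x ∈ Gen A (Λ.neighborSet v) := le_Gen hi hx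
            refine ⟨h.le i hx, Subgroup.mem_subgroupOf.2 (Subgroup.mem_sup_right hxg), ?_⟩
            rw [hφ1 i hiv x hx]
            exact hfg ⟨x, h.le i hx⟩ (Subgroup.mem_subgroupOf.2 hxg)
        exact fun x hx => h4 hx
      exact (hsup x (Subgroup.mem_subgroupOf.1 hx)).2.2

/-- the mixed parts are free -/
theorem gp_mix (h : IsGraphProd Λ N A) (S : Set I) (hS : S.Nontrivial) :
    IsFreeGroup (Mix N A S) := by
  obtain ⟨v, hv, w, hw, hvw⟩ := hS
  obtain ⟨e, he1, he2⟩ := h.retr {v}ᶜ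
  obtain ⟨e', he1', he2'⟩ := h.retr {v}
  have hvc : v ∉ ({v}ᶜ : Set I) := fun h => h rfl
  have hnb : ∀ j, j ∈ Λ.neighborSet v → j ≠ v := by
    intro j hj hjv
    subst hjv
    exact Λ.irrefl hj
  obtain ⟨f, hf⟩ : ∃ f : N →* N × N, f = e.prod e' := ⟨_, rfl⟩
  have hf1 : ∀ x, f x = 1 → e x = 1 ∧ e' x = 1 := by
    intro x hx
    rw [hf] at hx
    exact ⟨congrArg Prod.fst hx, congrArg Prod.snd hx⟩
  have hfree : IsFreeGroup f.ker := by
    refine amg_ker_free (gp_amg h v) f ?_ ?_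
    · rintro ⟨x, hx⟩ hxX h1
      have h2 : e ⟨x, hx⟩ = ⟨x, hx⟩ :=
        hom_Gen e (MonoidHom.id N) he1 h.le (Subgroup.mem_subgroupOf.1 hxX) hx
      rw [(hf1 _ h1).1] at h2
      exact h2.symm
    · rintro ⟨x, hx⟩ hxX h1
      have h2 : x ∈ A v ⊔ Gen A (Λ.neighborSet v) := Subgroup.mem_subgroupOf.1 hxX
      -- the factors commute
      have hcomm : ∀ a ∈ A v, ∀ b ∈ Gen A (Λ.neighborSet v), a * b = b * a := by
        intro a ha b hb
        refine Gen_ind (p := fun b => a * b = b * a) ?_ ?_ ?_ ?_ hb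
        · intro i hi y hy
          exact h.comm v i hi a ha y hy
        · simp
        · intro y z hy hz
          rw [← mul_assoc, hy, mul_assoc, hz, ← mul_assoc]
        · intro y hy
          rw [eq_inv_mul_iff_mul_eq, ← mul_assoc, ← hy, mul_assoc, mul_inv_cancel, mul_one]
      have h3 : A v ⊔ Gen A (Λ.neighborSet v) ≤
          ({ carrier := {x | ∃ a ∈ A v, ∃ b ∈ Gen A (Λ.neighborSet v), x = a * b}
             one_mem' := ⟨1, one_mem _, 1, one_mem _, (mul_one 1).symm⟩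
             mul_mem' := by
               rintro _ _ ⟨a, ha, b, hb, rfl⟩ ⟨a', ha', b', hb', rfl⟩
               refine ⟨a * a', mul_mem ha ha', b * b', mul_mem hb hb', ?_⟩
               rw [mul_assoc, ← mul_assoc b, ← hcomm a' ha' b hb]
               group
             inv_mem' := by
               rintro _ ⟨a, ha, b, hb, rfl⟩
               refine ⟨a⁻¹, inv_mem ha, b⁻¹, inv_mem hb, ?_⟩
               rw [mul_inv_rev, hcomm a⁻¹ (inv_mem ha) b⁻¹ (inv_mem hb)] } : Subgroup G) := by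
        refine sup_le ?_ ?_
        · intro a ha
          exact ⟨a, ha, 1, one_mem _, (mul_one a).symm⟩
        · intro b hb
          exact ⟨1, one_mem _, b, hb, (one_mul b).symm⟩
      obtain ⟨a, ha, b, hb, hab⟩ := h3 h2
      have haN : a ∈ N := h.le v ha
      have hbN : b ∈ N := Gen_le h.le _ hb
      have hxab : (⟨x, hx⟩ : N) = ⟨a, haN⟩ * ⟨b, hbN⟩ := Subtype.ext hab
      have hb0 : b ∈ Gen A {v}ᶜ := Gen_mono (fun j hj => hnb j hj) hb
      have h4 : e ⟨x, hx⟩ = ⟨b, hbN⟩ := by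
        have h5 : e ⟨b, hbN⟩ = ⟨b, hbN⟩ := hom_Gen e (MonoidHom.id N) he1 h.le hb0 hbN
        rw [hxab, map_mul, he2 v hvc a ha haN, one_mul, h5]
      have h5 : e' ⟨x, hx⟩ = ⟨a, haN⟩ := by
        have h6 : e' ⟨b, hbN⟩ = (1 : N →* N) ⟨b, hbN⟩ := hom_Gen e' 1
          (fun i (hi : i ≠ v) y hy hyN => he2' i hi y hy hyN) h.le hb0 hbN
        rw [hxab, map_mul, he1' v rfl a ha haN, h6]
        simp
      have h6 := hf1 _ h1
      rw [h6.1] at h4
      rw [h6.2] at h5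
      rw [hxab, ← h4, ← h5, one_mul]
  -- the mixed part is in the kernel
  have hMN : Mix N A S ≤ N := fun x hx => Gen_le h.le S (mem_Mix.1 hx).1
  have hker : ∀ x : Mix N A S, Subgroup.inclusion hMN x ∈ f.ker := by
    rintro ⟨x, hx⟩
    have hx' := mem_Mix.1 hx
    have hxN : x ∈ N := hMN hx
    rw [MonoidHom.mem_ker]
    show f ⟨x, hxN⟩ = 1
    obtain ⟨e2, he21, he22⟩ := h.retr (S \ {v})
    have h1 : e ⟨x, hxN⟩ = 1 := by
      have h2 : e ⟨x, hxN⟩ = e2 ⟨x, hxN⟩ := by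
        refine hom_Gen e e2 ?_ h.le hx'.1 hxN
        intro i hi y hy hyN
        by_cases hiv : i = v
        · rw [hiv] at hy
          rw [he2 v hvc y hy hyN, he22 v (fun h' => h'.2 rfl) y hy hyN]
        · rw [he1 i hiv y hy hyN, he21 i ⟨hi, hiv⟩ y hy hyN]
      rw [h2]
      exact hom_Oth e2 he22 h.le (hx'.2 v hv) hxN
    have h2 : e' ⟨x, hxN⟩ = 1 := by
      refine hom_Oth (S := S \ {w}) e' ?_ h.le (hx'.2 w hw) hxN
      intro i hi y hy hyN
      refine he2' i ?_ y hy hyN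
      rintro rfl
      exact hi ⟨hv, hvw⟩
    rw [hf, MonoidHom.prod_apply, h1, h2]
    rfl
  have hinj : Function.Injective ((Subgroup.inclusion hMN).codRestrict f.ker hker) := by
    intro x y hxy
    have h1 := congrArg (fun z : f.ker => ((z : N) : G)) hxy
    exact Subtype.ext h1
  exact IsFreeGroup.ofMulEquiv (MonoidHom.ofInjective hinj).symm

/-- mapping tori of free groups -/
theorem tori_free (hC : ClosedE C) (hF : FbC C) (D : Type) [Group D] [IsFreeGroup D] : Tori C D := by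
  intro α
  obtain ⟨K, hK⟩ : ∃ K : Subgroup (D ⋊[zpowersHom (MulAut D) α] Multiplicative ℤ),
    K = (SemidirectProduct.inl (φ := zpowersHom (MulAut D) α)).range := ⟨_, rfl⟩
  have hKn : K.Normal := by
    rw [hK, SemidirectProduct.range_inl_eq_ker_rightHom]
    infer_instance
  have hKf : IsFreeGroup K := by
    subst hK
    exact IsFreeGroup.ofMulEquiv
      (MonoidHom.ofInjective (SemidirectProduct.inl_injective (φ := zpowersHom (MulAut D) α)))
  have h1 := free_cyc hC hF K (SemidirectProduct.inr (Multiplicative.ofAdd (1 : ℤ)))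
  refine C_equiv hC.base Subgroup.topEquiv.symm (C_le hC.base (H := ⊤) ?_ h1)
  intro x _
  rw [← SemidirectProduct.inl_left_mul_inr_right x]
  refine mul_mem (Subgroup.mem_sup_left ?_) (Subgroup.mem_sup_right ?_)
  · rw [hK]
    exact ⟨x.left, rfl⟩
  · rw [Subgroup.mem_zpowers_iff]
    refine ⟨Multiplicative.toAdd x.right, ?_⟩
    rw [← map_zpow]
    congr 1
    rw [← ofAdd_zsmul]
    simp

/-- **extensions by graph products** -/
theorem main_graph (hC : ClosedE C) (hF : FbC C) (hA : IsGraphProd Λ N A)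
    (hperm : ∀ (i : I) (g : G), ∃ j, ∃ n ∈ N, ∀ x, x ∈ A i ↔ n * (g * x * g⁻¹) * n⁻¹ ∈ A j)
    (hcyc : ∀ (i : I) (g : G), (∀ x, x ∈ A i ↔ g * x * g⁻¹ ∈ A i) → C ↥(A i ⊔ Subgroup.zpowers g))
    [hN : N.Normal] (hQ : C (G ⧸ N)) : C G := by
  refine main_regular hC hA.sup (fun S _ => gp_ind hA S) hperm hcyc (fun S _ hS => ?_) hQ
  have := gp_mix hA S hS
  exact tori_free hC hF _

end gp

end Pool.Agent.W5h2.GP
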