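import Pool.Agent.W5h2.GP.Quot

/-!
# Extensions by regular systems of subgroups
-/

set_option autoImplicit false

namespace Pool.Agent.W5h2.GP

open Pool.Agent.Y110.FJ
open Pool.Agent.R941.FJ (C_equiv C_le C_cyc mem_sup_normal IsRdp)
open Pool.Agent.R684.FP (NC Rel Dat sg sg_spec sg_inj sg_mul sg_M Ct cyc_real act act_mk dec mem_NC
  mem_NC' comm_mem Ct_le Ct_le' mem_Ct Ct_normal)
open Pool.Agent.R942.FJ (Detected main_detected)
open Pool.Agent.Y462.SS (Closed)

variable {C : ∀ (G : Type) [Group G], Prop}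

/-- the quotient by the cartesian subgroup (copied from the proof of `Pool.Agent.R684.FP.regular`) -/
theorem regular_quot (hC : ClosedE C) {G I : Type} [Group G] {M : Subgroup G} {B : I → Subgroup G}
    [M.Normal] (d : Dat M B) [hn : (Ct M B).Normal]
    (hB : ∀ (i : I) (g : G), (∀ x, x ∈ B i ↔ g * x * g⁻¹ ∈ B i) → C ↥(B i ⊔ Subgroup.zpowers g))
    (hQ : C (G ⧸ M)) : C (G ⧸ Ct M B) := by
  let _ := act d
  have hact : ∀ (g : G) (i : I), (g : G ⧸ Ct M B) • i = sg d g i := fun g i => act_mk d g i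
  obtain ⟨π, hπ⟩ : ∃ π : G →* G ⧸ Ct M B, π = QuotientGroup.mk' (Ct M B) := ⟨_, rfl⟩
  have hπe : ∀ x y : G, π x = π y ↔ x⁻¹ * y ∈ Ct M B := by
    intro x y
    rw [hπ]
    exact QuotientGroup.eq
  have hπ1 : ∀ x : G, π x = 1 ↔ x ∈ Ct M B := by
    intro x
    rw [hπ]
    exact QuotientGroup.eq_one_iff x
  have hπc : ∀ {i : I} {b l : G}, b ∈ B i → l ∈ NC M B i → π (l * b * l⁻¹) = π b := by
    intro i b l hb hl
    have h1 := (hπ1 _).2 (comm_mem d hb hl)
    rw [map_mul, map_inv π b, mul_inv_eq_one] at h1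
    exact h1
  have hπs : Function.Surjective π := by rw [hπ]; exact QuotientGroup.mk'_surjective _
  have hMn : (M.map π).Normal := Subgroup.Normal.map inferInstance π hπs
  have hinj : ∀ (i : I) (b : G), b ∈ B i → π b = 1 → b = 1 := by
    intro i b hb h1
    have h2 : b ∈ B i ⊓ NC M B i := ⟨hb, Ct_le' i ((hπ1 b).1 h1)⟩
    rwa [d.reg i, Subgroup.mem_bot] at h2
  -- conjugates
  have hconj : ∀ (g : G) (i : I), ∃ c : G, (∀ x, x ∈ B i ↔ c * x * c⁻¹ ∈ B (sg d g i)) ∧
      ∀ x, x ∈ B i → π (g * x * g⁻¹) = π (c * x * c⁻¹) := by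
    intro g i
    obtain ⟨m, hm, h1⟩ := sg_spec d g i
    obtain ⟨b, hb, l, hl, hbl⟩ := dec d.sup (sg d g i) (M.inv_mem hm)
    refine ⟨b * m * g, fun x => ?_, fun x hx => ?_⟩
    · rw [h1]
      have h2 : b * m * g * x * (b * m * g)⁻¹ = b * (m * (g * x * g⁻¹) * m⁻¹) * b⁻¹ := by group
      rw [h2]
      constructor
      · intro h
        exact (B _).mul_mem ((B _).mul_mem hb h) ((B _).inv_mem hb)
      · intro h
        have h3 := (B _).mul_mem ((B _).mul_mem ((B _).inv_mem hb) h) hb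
        have h4 : ∀ z : G, b⁻¹ * (b * z * b⁻¹) * b = z := fun z => by group
        rwa [h4] at h3
    · have h3 := (h1 x).1 hx
      obtain ⟨y, hy⟩ : ∃ y, y = m * (g * x * g⁻¹) * m⁻¹ := ⟨_, rfl⟩
      rw [← hy] at h3
      have h4 : g * x * g⁻¹ = b * (l * y * l⁻¹) * b⁻¹ := by
        have h5 : g * x * g⁻¹ = m⁻¹ * y * m⁻¹⁻¹ := by rw [hy]; group
        rw [h5, hbl]
        group
      have h5 : b * m * g * x * (b * m * g)⁻¹ = b * y * b⁻¹ := by rw [hy]; group
      rw [h5, h4, map_mul, map_mul π b, hπc h3 hl, ← map_mul, ← map_mul]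
  refine Pool.Agent.R941.FJ.rdp (N := M.map π) (K := fun i => (B i).map π) hC ?_ ?_ ?_
  · -- restricted direct product
    refine ⟨?_, ?_, ?_, ?_⟩
    · rw [← Subgroup.map_iSup, d.sup]
    · rintro i j hij _ ⟨x, hx, rfl⟩ _ ⟨y, hy, rfl⟩
      have h1 := hπc hx (mem_NC' (M := M) (fun h => hij h.symm) hy)
      rw [map_mul, map_mul, map_inv, mul_inv_eq_iff_eq_mul] at h1
      exact h1.symm
    · intro i
      rw [eq_bot_iff]
      rintro z ⟨hz1, hz2⟩
      obtain ⟨b, hb, rfl⟩ := hz1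
      have h1 : (⨆ j, ⨆ _ : j ≠ i, (B j).map π) ≤ (NC M B i).map π := by
        refine iSup₂_le fun j hj => Subgroup.map_mono ?_
        intro x hx
        exact mem_NC' hj hx
      obtain ⟨l, hl, hlb⟩ := h1 hz2
      have h2 := Ct_le' i ((hπe l b).1 hlb)
      have h3 : b ∈ NC M B i := by
        have := (NC M B i).mul_mem hl h2
        rwa [mul_inv_cancel_left] at this
      have h4 : b ∈ B i ⊓ NC M B i := ⟨hb, h3⟩
      rw [d.reg i, Subgroup.mem_bot] at h4
      rw [Subgroup.mem_bot, h4, map_one]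
    · intro g i x hx
      obtain ⟨a, rfl⟩ := hπs g
      obtain ⟨b, hb, rfl⟩ := hx
      obtain ⟨c, hc, hc'⟩ := hconj a i
      have h1 : π a • i = sg d a i := by rw [hπ]; exact hact a i
      rw [h1, ← map_mul, ← map_inv, ← map_mul, hc' b hb]
      exact ⟨_, (hc b).1 hb, rfl⟩
  · -- cyclic extensions of the factors
    intro i g hgi
    obtain ⟨a, rfl⟩ := hπs g
    have h1 : π a • i = sg d a i := by rw [hπ]; exact hact a i
    rw [h1] at hgi
    obtain ⟨c, hc, hc'⟩ := hconj a i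
    rw [hgi] at hc
    -- the isomorphism
    let e0 : B i →* (B i).map π := (π.subgroupMap (B i))
    have he0 : Function.Bijective e0 := by
      refine ⟨?_, MonoidHom.subgroupMap_surjective _ _⟩
      rw [injective_iff_map_eq_one]
      intro x hx
      exact Subtype.ext (hinj i x x.2 (congrArg Subtype.val hx))
    let e : B i ≃* (B i).map π := MulEquiv.ofBijective e0 he0
    have he : ∀ x : B i, ((e x : (B i).map π) : G ⧸ Ct M B) = π x := fun x => rfl
    have hcP : c ∈ B i ⊔ Subgroup.zpowers c := Subgroup.mem_sup_right (Subgroup.mem_zpowers c)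
    have hBle : B i ≤ B i ⊔ Subgroup.zpowers c := le_sup_left
    refine cyc_real hC ((B i).map π) (π a) ?_
      ((Subgroup.inclusion hBle).comp e.symm.toMonoidHom) ?_ ⟨c, hcP⟩ ?_ (hB i c hc)
    · -- normalization
      intro x
      have key : ∀ x, x ∈ (B i).map π → π a * x * (π a)⁻¹ ∈ (B i).map π := by
        rintro _ ⟨b, hb, rfl⟩
        rw [← map_mul, ← map_inv, ← map_mul, hc' b hb]
        exact ⟨_, (hc b).1 hb, rfl⟩
      refine ⟨key x, fun hx => ?_⟩
      obtain ⟨b, hb, hbx⟩ := hx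
      have hb' : c * (c⁻¹ * b * c) * c⁻¹ ∈ B i := by
        have : c * (c⁻¹ * b * c) * c⁻¹ = b := by group
        rw [this]; exact hb
      have h2 := (hc _).2 hb'
      have h3 := hc' _ h2
      have h4 : c * (c⁻¹ * b * c) * c⁻¹ = b := by group
      rw [h4, hbx, map_mul, map_mul, map_inv, mul_left_inj, mul_right_inj] at h3
      rw [← h3]
      exact ⟨_, h2, rfl⟩
    · exact (Subgroup.inclusion_injective hBle).comp e.symm.injective
    · intro x y hxy
      obtain ⟨b, rfl⟩ := e.surjective x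
      have h2 : y = e ⟨c * b * c⁻¹, (hc b).1 b.2⟩ := by
        apply Subtype.ext
        rw [hxy, he, he, ← map_mul, ← map_inv, ← map_mul, hc' b b.2]
      rw [h2]
      apply Subtype.ext
      show ((e.symm (e ⟨c * b * c⁻¹, (hc b).1 b.2⟩) : B i) : G) = c * ((e.symm (e b) : B i) : G) * c⁻¹
      rw [e.symm_apply_apply, e.symm_apply_apply]
  · -- the quotient
    have h1 : (M.map π) = M.map (QuotientGroup.mk' (Ct M B)) := by rw [hπ]
    have hle : Ct M B ≤ M := Ct_le
    subst hπ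
    exact C_equiv hC.base (QuotientGroup.quotientQuotientEquivQuotient (Ct M B) M hle) hQ


section main

variable {G I : Type} [Group G] {N : Subgroup G} {B : I → Subgroup G}

theorem NC_eq (i : I) : NC N B i = Oth N B {i} := rfl

theorem K_one (hsup : ⨆ i, B i = N) : K N B 1 = Ct N B := by
  ext x
  rw [mem_K, mem_Ct]
  refine and_congr_right fun hxN => ⟨fun h i => ?_, fun h S hS => ?_⟩
  · have h1 := h {i} (by simp)
    rwa [Finset.coe_singleton] at h1
  · by_cases hne : S.Nonempty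
    · obtain ⟨i, hi⟩ := hne
      have h2 : (S : Set I) ⊆ {i} := by
        intro j hj
        have := Finset.card_le_one.1 hS i hi j hj
        rw [Set.mem_singleton_iff, this]
      exact Oth_anti h2 (h i)
    · rw [Finset.not_nonempty_iff_eq_empty] at hne
      subst hne
      have h3 : x ∈ K N B 0 := by rw [K_zero hsup]; exact hxN
      exact (mem_K.1 h3).2 ∅ (by simp)

theorem levels (hC : ClosedE C) (d : Dat N B) (h : Ind N B)
    (hcyc : ∀ (i : I) (g : G), (∀ x, x ∈ B i ↔ g * x * g⁻¹ ∈ B i) → C ↥(B i ⊔ Subgroup.zpowers g))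
    (hmix : ∀ S : Finset I, 2 ≤ S.card → Tori C (Mix N B (S : Set I)))
    [hN : N.Normal] (hQ : C (G ⧸ N)) (m : ℕ) : ∀ _ : (K N B m).Normal, C (G ⧸ K N B m) := by
  induction m with
  | zero =>
    intro _
    exact C_equiv hC.base (QuotientGroup.quotientMulEquivOfEq (K_zero d.sup)) hQ
  | succ m ih =>
    intro hn
    have hn0 := K_normal d m
    have ih' := ih hn0
    cases m with
    | zero =>
      have hct := Ct_normal d
      exact C_equiv hC.base (QuotientGroup.quotientMulEquivOfEq (K_one d.sup))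
        (regular_quot hC d hcyc hQ)
    | succ m =>
      refine quo_step hC d h (m + 1) (fun S hS g hg => ?_) ih'
      obtain ⟨e⟩ := mix_equiv d.sup h hS
      exact tori_cyc hC (hmix S (by omega)) _ e g hg

theorem main_dat (hC : ClosedE C) (d : Dat N B) (h : Ind N B)
    (hcyc : ∀ (i : I) (g : G), (∀ x, x ∈ B i ↔ g * x * g⁻¹ ∈ B i) → C ↥(B i ⊔ Subgroup.zpowers g))
    (hmix : ∀ S : Finset I, 2 ≤ S.card → Tori C (Mix N B (S : Set I)))
    [hN : N.Normal] (hQ : C (G ⧸ N)) : C G := by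
  classical
  refine main_detected hC N (fun g E hE hEN => ?_) hQ
  -- a finite set of indices
  obtain ⟨D, hD⟩ : ∃ D : Finset I, E ⊆ Gen B (D : Set I) := by
    induction E, hE using Set.Finite.induction_on with
    | empty => exact ⟨∅, Set.empty_subset _⟩
    | @insert a s _ _ ih =>
      obtain ⟨D, hD⟩ := ih fun x hx => hEN (Set.mem_insert_of_mem a hx)
      obtain ⟨D', hD'⟩ := ex_fin d.sup (hEN (Set.mem_insert a s))
      refine ⟨D ∪ D', fun x hx => ?_⟩
      rcases Set.mem_insert_iff.1 hx with rfl | hx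
      · exact Gen_mono (by exact_mod_cast Finset.subset_union_right) hD'
      · exact Gen_mono (by exact_mod_cast Finset.subset_union_left) (hD hx)
  have hn := K_normal d D.card
  refine ⟨G ⧸ K N B D.card, inferInstance,
    (QuotientGroup.mk' (K N B D.card)).comp (Subgroup.subtype _), levels hC d h hcyc hmix hQ _ hn, ?_⟩
  intro x hx h1
  have h2 : (x : G) ∈ K N B D.card := (QuotientGroup.eq_one_iff _).1 h1
  have h3 : (x : G) ∈ Gen B (D : Set I) := (Subgroup.closure_le _).2 hD hx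
  exact Subtype.ext (h.eq_one h3 ((mem_K.1 h2).2 D le_rfl))

/-! ### trivial factors -/

theorem Gen_sub (S : Set {i : I // B i ≠ ⊥}) :
    Gen (fun i : {i : I // B i ≠ ⊥} => B i.1) S = Gen B (Subtype.val '' S) := by
  apply le_antisymm
  · exact iSup₂_le fun i hi => le_Gen ⟨i, hi, rfl⟩
  · refine iSup₂_le fun i hi => ?_
    obtain ⟨j, hj, rfl⟩ := hi
    exact le_Gen (B := fun i : {i : I // B i ≠ ⊥} => B i.1) hj

theorem Oth_sub (S : Set {i : I // B i ≠ ⊥}) :
    Oth N (fun i : {i : I // B i ≠ ⊥} => B i.1) S = Oth N B (Subtype.val '' S) := by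
  apply le_antisymm
  · rw [Oth, Subgroup.closure_le]
    rintro _ ⟨j, hj, m, hm, b, hb, rfl⟩
    refine mem_Oth (j := j.1) ?_ hm hb
    rintro ⟨k, hk, hkj⟩
    exact hj (Subtype.ext hkj ▸ hk)
  · rw [Oth, Subgroup.closure_le]
    rintro _ ⟨j, hj, m, hm, b, hb, rfl⟩
    by_cases hne : B j = ⊥
    · rw [hne, Subgroup.mem_bot] at hb
      rw [hb]
      simp
    · exact mem_Oth (B := fun i : {i : I // B i ≠ ⊥} => B i.1) (j := ⟨j, hne⟩)
        (fun hjS => hj ⟨_, hjS, rfl⟩) hm hb

theorem Mix_sub_eq (S : Set {i : I // B i ≠ ⊥}) :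
    Mix N (fun i : {i : I // B i ≠ ⊥} => B i.1) S = Mix N B (Subtype.val '' S) := by
  ext x
  rw [mem_Mix, mem_Mix, Gen_sub]
  refine and_congr_right fun _ => ⟨?_, ?_⟩
  · rintro h _ ⟨i, hi, rfl⟩
    have h1 := h i hi
    rw [Oth_sub, Set.image_sdiff Subtype.val_injective, Set.image_singleton] at h1
    exact h1
  · intro h i hi
    rw [Oth_sub, Set.image_sdiff Subtype.val_injective, Set.image_singleton]
    exact h i.1 ⟨i, hi, rfl⟩

/-- **extensions by regular systems of subgroups** -/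
theorem main_regular (hC : ClosedE C) (hsup : ⨆ i, B i = N)
    (hind : ∀ S : Set I, S.Finite → Gen B S ⊓ Oth N B S = ⊥)
    (hperm : ∀ (i : I) (g : G), ∃ j, ∃ n ∈ N, ∀ x, x ∈ B i ↔ n * (g * x * g⁻¹) * n⁻¹ ∈ B j)
    (hcyc : ∀ (i : I) (g : G), (∀ x, x ∈ B i ↔ g * x * g⁻¹ ∈ B i) → C ↥(B i ⊔ Subgroup.zpowers g))
    (hmix : ∀ S : Set I, S.Finite → S.Nontrivial → Tori C (Mix N B S))
    [hN : N.Normal] (hQ : C (G ⧸ N)) : C G := by
  have hind' : Ind N (fun i : {i : I // B i ≠ ⊥} => B i.1) := by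
    intro S
    rw [Gen_sub, Oth_sub]
    exact hind _ (S.finite_toSet.image _)
  have hsup' : (⨆ i : {i : I // B i ≠ ⊥}, B i.1) = N := by
    rw [← hsup]
    apply le_antisymm
    · exact iSup_le fun i => le_iSup B i.1
    · refine iSup_le fun i => ?_
      by_cases h : B i = ⊥
      · rw [h]; exact bot_le
      · exact le_iSup (fun i : {i : I // B i ≠ ⊥} => B i.1) ⟨i, h⟩
  have d : Dat N (fun i : {i : I // B i ≠ ⊥} => B i.1) := by
    refine ⟨hN, fun i => i.2, hsup', fun i => ?_, fun g i => ?_⟩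
    · rw [NC_eq, Oth_sub, Set.image_singleton, eq_bot_iff]
      exact (inf_le_inf (le_Gen (S := {i.1}) (Set.mem_singleton _)) le_rfl).trans
        (hind {i.1} (Set.finite_singleton _)).le
    · obtain ⟨j, n, hn, hx⟩ := hperm i.1 g
      have hj : B j ≠ ⊥ := by
        intro hj
        apply i.2
        rw [eq_bot_iff]
        intro x hxi
        have h1 := (hx x).1 hxi
        rw [hj, Subgroup.mem_bot] at h1
        rw [Subgroup.mem_bot]
        have h2 : x = g⁻¹ * n⁻¹ * (n * (g * x * g⁻¹) * n⁻¹) * n * g := by group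
        rw [h2, h1]
        group
      exact ⟨⟨j, hj⟩, n, hn, hx⟩
  refine main_dat hC d hind' (fun i g hg => hcyc i.1 g hg) (fun S hS => ?_) hQ
  rw [Mix_sub_eq]
  refine hmix _ (S.finite_toSet.image _) ?_
  rw [Set.Nontrivial.eq_1]
  obtain ⟨a, ha, b, hb, hab⟩ := Finset.one_lt_card.1 (by omega : 1 < S.card)
  exact ⟨a.1, ⟨a, ha, rfl⟩, b.1, ⟨b, hb, rfl⟩, fun h => hab (Subtype.ext h)⟩

end main

end Pool.Agent.W5h2.GP
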