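import Pool.Agent.R684.FP.Main
import Pool.Agent.R942.FJ.Det

/-!
# Regular systems of subgroups: the filtration by the number of factors
-/

set_option autoImplicit false

namespace Pool.Agent.W5h2.GP

open Pool.Agent.Y110.FJ
open Pool.Agent.R941.FJ (C_equiv C_le C_cyc mem_sup_normal IsRdp)
open Pool.Agent.R684.FP (NC Rel Dat sg sg_spec sg_inj sg_mul sg_M Ct)
open Pool.Agent.Y462.SS (Closed)

variable {C : ∀ (G : Type) [Group G], Prop}

section defs

variable {G I : Type} [Group G]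

/-- the subgroup generated by the `B i`, `i ∈ S` -/
def Gen (B : I → Subgroup G) (S : Set I) : Subgroup G := ⨆ i, ⨆ _ : i ∈ S, B i

/-- the normal closure in `N` of the subgroups `B j`, `j ∉ S` -/
def Oth (N : Subgroup G) (B : I → Subgroup G) (S : Set I) : Subgroup G :=
  Subgroup.closure {x | ∃ j, j ∉ S ∧ ∃ m ∈ N, ∃ b ∈ B j, x = m * b * m⁻¹}

variable {N : Subgroup G} {B : I → Subgroup G}

theorem le_Gen {S : Set I} {i : I} (h : i ∈ S) : B i ≤ Gen B S := le_iSup₂_of_le i h le_rfl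

theorem Gen_mono {S T : Set I} (h : S ⊆ T) : Gen B S ≤ Gen B T :=
  iSup₂_le fun _ hi => le_Gen (h hi)

theorem Gen_le (hB : ∀ i, B i ≤ N) (S : Set I) : Gen B S ≤ N := iSup₂_le fun i _ => hB i

theorem mem_Oth {S : Set I} {j : I} (h : j ∉ S) {m b : G} (hm : m ∈ N) (hb : b ∈ B j) :
    m * b * m⁻¹ ∈ Oth N B S := Subgroup.subset_closure ⟨j, h, m, hm, b, hb, rfl⟩

theorem mem_Oth' {S : Set I} {j : I} (h : j ∉ S) {b : G} (hb : b ∈ B j) : b ∈ Oth N B S := by
  have := mem_Oth (N := N) h (one_mem N) hb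
  simpa using this

theorem Oth_anti {S T : Set I} (h : S ⊆ T) : Oth N B T ≤ Oth N B S := by
  rw [Oth, Subgroup.closure_le]
  rintro _ ⟨j, hj, m, hm, b, hb, rfl⟩
  exact mem_Oth (fun hjS => hj (h hjS)) hm hb

theorem Oth_le (hB : ∀ i, B i ≤ N) (S : Set I) : Oth N B S ≤ N := by
  rw [Oth, Subgroup.closure_le]
  rintro _ ⟨j, _, m, hm, b, hb, rfl⟩
  exact N.mul_mem (N.mul_mem hm (hB j hb)) (N.inv_mem hm)

theorem Oth_conj (S : Set I) {m x : G} (hm : m ∈ N) (hx : x ∈ Oth N B S) :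
    m * x * m⁻¹ ∈ Oth N B S := by
  have h1 : Oth N B S ≤ (Oth N B S).comap (MulAut.conj m).toMonoidHom := by
    conv_lhs => rw [Oth]
    rw [Subgroup.closure_le]
    rintro _ ⟨j, hj, n, hn, b, hb, rfl⟩
    show m * (n * b * n⁻¹) * m⁻¹ ∈ Oth N B S
    have := mem_Oth hj (N.mul_mem hm hn) hb
    have h2 : m * (n * b * n⁻¹) * m⁻¹ = m * n * b * (m * n)⁻¹ := by group
    rwa [h2]
  exact h1 hx

theorem Oth_conj' (S : Set I) {m x : G} (hm : m ∈ N) (hx : x ∈ Oth N B S) :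
    m⁻¹ * x * m ∈ Oth N B S := by
  have := Oth_conj S (N.inv_mem hm) hx
  rwa [inv_inv] at this

/-- relative decomposition -/
theorem dec_rel (hB : ∀ i, B i ≤ N) (D T : Set I) {x : G} (hx : x ∈ Gen B D) :
    ∃ b ∈ Gen B (T ∩ D), ∃ l ∈ Oth N B T, x = b * l := by
  have h1 : Gen B D ≤
      { carrier := {x | ∃ b ∈ Gen B (T ∩ D), ∃ l ∈ Oth N B T, x = b * l}
        one_mem' := ⟨1, one_mem _, 1, one_mem _, (mul_one 1).symm⟩
        mul_mem' := by
          rintro _ _ ⟨b, hb, l, hl, rfl⟩ ⟨b', hb', l', hl', rfl⟩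
          refine ⟨b * b', mul_mem hb hb', b'⁻¹ * l * b' * l', mul_mem ?_ hl', by group⟩
          exact Oth_conj' T (Gen_le hB _ hb') hl
        inv_mem' := by
          rintro _ ⟨b, hb, l, hl, rfl⟩
          exact ⟨b⁻¹, inv_mem hb, b * l⁻¹ * b⁻¹, Oth_conj T (Gen_le hB _ hb) (inv_mem hl), by group⟩ :
        Subgroup G } := by
    refine iSup₂_le fun j hj b hb => ?_
    by_cases hjT : j ∈ T
    · exact ⟨b, le_Gen (S := T ∩ D) ⟨hjT, hj⟩ hb, 1, one_mem _, (mul_one b).symm⟩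
    · exact ⟨1, one_mem _, b, mem_Oth' hjT hb, (one_mul b).symm⟩
  exact h1 hx

/-- regular systems -/
def Ind (N : Subgroup G) (B : I → Subgroup G) : Prop :=
  ∀ S : Finset I, Gen B (S : Set I) ⊓ Oth N B (S : Set I) = ⊥

theorem Ind.eq_one (h : Ind N B) {S : Finset I} {x : G} (h1 : x ∈ Gen B (S : Set I))
    (h2 : x ∈ Oth N B (S : Set I)) : x = 1 := by
  have h3 : x ∈ Gen B (S : Set I) ⊓ Oth N B (S : Set I) := ⟨h1, h2⟩
  rwa [h S, Subgroup.mem_bot] at h3

/-- an element of `Gen B S` which vanishes in the part `T ∩ S` vanishes in the part `T` -/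
theorem step1 (hB : ∀ i, B i ≤ N) (h : Ind N B) {S : Finset I} {T : Set I} {x : G}
    (hx : x ∈ Gen B (S : Set I)) (h2 : x ∈ Oth N B (T ∩ (S : Set I))) : x ∈ Oth N B T := by
  classical
  obtain ⟨b, hb, l, hl, rfl⟩ := dec_rel (N := N) hB (S : Set I) T hx
  have hl' : l ∈ Oth N B (T ∩ (S : Set I)) := Oth_anti Set.inter_subset_left hl
  have hb' : b ∈ Oth N B (T ∩ (S : Set I)) := by
    have := mul_mem h2 (inv_mem hl')
    rwa [mul_inv_cancel_right] at this
  have hf : (T ∩ (S : Set I)) = ((S.filter fun i => i ∈ T : Finset I) : Set I) := by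
    ext i
    simp [and_comm]
  rw [hf] at hb hb'
  rw [h.eq_one hb hb', one_mul]
  exact hl

variable (N B) in
/-- the elements which vanish in all parts with at most `n` factors -/
def K (n : ℕ) : Subgroup G := N ⊓ ⨅ S : Finset I, ⨅ _ : S.card ≤ n, Oth N B (S : Set I)

variable (N B) in
/-- the elements which vanish in all parts with at most `card S` factors different from `S` -/
def DT (S : Finset I) : Subgroup G :=
  N ⊓ ⨅ T : Finset I, ⨅ _ : T.card ≤ S.card, ⨅ _ : T ≠ S, Oth N B (T : Set I)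

theorem mem_K {n : ℕ} {x : G} : x ∈ K N B n ↔ x ∈ N ∧ ∀ S : Finset I, S.card ≤ n →
    x ∈ Oth N B (S : Set I) := by
  simp only [K, Subgroup.mem_inf, Subgroup.mem_iInf]

theorem mem_DT {S : Finset I} {x : G} : x ∈ DT N B S ↔ x ∈ N ∧ ∀ T : Finset I, T.card ≤ S.card →
    T ≠ S → x ∈ Oth N B (T : Set I) := by
  simp only [DT, Subgroup.mem_inf, Subgroup.mem_iInf]

theorem K_le (n : ℕ) : K N B n ≤ N := inf_le_left

theorem K_anti {m n : ℕ} (h : m ≤ n) : K N B n ≤ K N B m := by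
  intro x hx
  rw [mem_K] at hx ⊢
  exact ⟨hx.1, fun S hS => hx.2 S (hS.trans h)⟩

theorem K_le_DT {m : ℕ} {S : Finset I} (hS : S.card = m + 1) : K N B (m + 1) ≤ DT N B S := by
  intro x hx
  rw [mem_K] at hx
  rw [mem_DT]
  exact ⟨hx.1, fun T hT _ => hx.2 T (hS ▸ hT)⟩

theorem DT_le_K {m : ℕ} {S : Finset I} (hS : S.card = m + 1) : DT N B S ≤ K N B m := by
  intro x hx
  rw [mem_DT] at hx
  rw [mem_K]
  refine ⟨hx.1, fun T hT => hx.2 T (by omega) ?_⟩
  rintro rfl
  omega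

theorem K_conjN {n : ℕ} {m x : G} (hm : m ∈ N) (hx : x ∈ K N B n) : m * x * m⁻¹ ∈ K N B n := by
  rw [mem_K] at hx ⊢
  exact ⟨N.mul_mem (N.mul_mem hm hx.1) (N.inv_mem hm), fun S hS => Oth_conj _ hm (hx.2 S hS)⟩

theorem K_zero (hsup : ⨆ i, B i = N) : K N B 0 = N := by
  refine le_antisymm inf_le_left fun x hx => ?_
  rw [mem_K]
  refine ⟨hx, fun S hS => ?_⟩
  have hS' : S = ∅ := Finset.card_eq_zero.1 (by omega)
  subst hS'
  have h1 : N ≤ Oth N B ((∅ : Finset I) : Set I) := by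
    conv_lhs => rw [← hsup]
    refine iSup_le fun i b hb => mem_Oth' (by simp) hb
  exact h1 hx

theorem ex_fin (hsup : ⨆ i, B i = N) {x : G} (hx : x ∈ N) : ∃ D : Finset I, x ∈ Gen B (D : Set I) := by
  classical
  rw [← hsup] at hx
  induction hx using Subgroup.iSup_induction' with
  | hp j x hx => exact ⟨{j}, le_Gen (by simp) hx⟩
  | h1 => exact ⟨∅, one_mem _⟩
  | hmul x y _ _ hx hy =>
    obtain ⟨D, hx⟩ := hx
    obtain ⟨D', hy⟩ := hy
    refine ⟨D ∪ D', mul_mem (Gen_mono ?_ hx) (Gen_mono ?_ hy)⟩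
    · exact_mod_cast Finset.subset_union_left
    · exact_mod_cast Finset.subset_union_right

/-- the component at `S` of an element of `K m` is in `DT S` -/
theorem comp_DT (hB : ∀ i, B i ≤ N) (h : Ind N B) {S : Finset I}
    {b l : G} (hb : b ∈ Gen B (S : Set I)) (hl : l ∈ Oth N B (S : Set I))
    (hbl : ∀ T : Finset I, T ⊆ S → T ≠ S → b * l ∈ Oth N B (T : Set I)) : b ∈ DT N B S := by
  classical
  rw [mem_DT]
  refine ⟨Gen_le hB _ hb, fun T hT hTS => ?_⟩
  refine step1 hB h hb ?_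
  have hne : T ∩ S ≠ S := by
    intro heq
    apply hTS
    have h1 : S ⊆ T := by
      rw [← heq]
      exact Finset.inter_subset_left
    exact (Finset.eq_of_subset_of_card_le h1 hT).symm
  have h1 := hbl (T ∩ S) Finset.inter_subset_right hne
  rw [Finset.coe_inter] at h1
  have h2 : l ∈ Oth N B ((T : Set I) ∩ (S : Set I)) := Oth_anti Set.inter_subset_right hl
  have := mul_mem h1 (inv_mem h2)
  rwa [mul_inv_cancel_right] at this

theorem gen_K (hsup : ⨆ i, B i = N) (h : Ind N B) (m : ℕ) {x : G} (hx : x ∈ K N B m) :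
    ∃ z ∈ ⨆ S : {S : Finset I // S.card = m + 1}, DT N B S.1, ∃ y ∈ K N B (m + 1), x = z * y := by
  classical
  have hB : ∀ i, B i ≤ N := fun i => hsup ▸ le_iSup B i
  obtain ⟨D, hD⟩ := ex_fin hsup (K_le m hx)
  have key : ∀ 𝒮 : Finset (Finset I), (∀ S ∈ 𝒮, S ⊆ D ∧ S.card = m + 1) →
      ∃ z ∈ ⨆ S : {S : Finset I // S.card = m + 1}, DT N B S.1, ∃ y, x = z * y ∧ y ∈ K N B m ∧
        y ∈ Gen B (D : Set I) ∧ ∀ S ∈ 𝒮, y ∈ Oth N B (S : Set I) := by
    intro 𝒮
    induction 𝒮 using Finset.induction_on with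
    | empty =>
      intro _
      exact ⟨1, one_mem _, x, (one_mul x).symm, hx, hD, by simp⟩
    | @insert S 𝒮 hS ih =>
      intro hh
      obtain ⟨z, hz, y, hxy, hyK, hyD, hy⟩ := ih fun S hS => hh S (Finset.mem_insert_of_mem hS)
      obtain ⟨hSD, hSc⟩ := hh S (Finset.mem_insert_self _ _)
      obtain ⟨b, hb, l, hl, hbl⟩ := dec_rel (N := N) hB (D : Set I) (S : Set I) hyD
      have hSD' : (S : Set I) ∩ (D : Set I) = (S : Set I) :=
        Set.inter_eq_left.2 (by exact_mod_cast hSD)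
      rw [hSD'] at hb
      have hyK' := mem_K.1 hyK
      have hbD : b ∈ DT N B S := by
        refine comp_DT hB h hb hl fun T hTS hne => ?_
        rw [← hbl]
        refine hyK'.2 T ?_
        have := Finset.card_lt_card (Finset.ssubset_iff_subset_ne.2 ⟨hTS, hne⟩)
        omega
      have hlb : l = b⁻¹ * y := by rw [hbl]; group
      refine ⟨z * b, mul_mem hz ?_, l, ?_, ?_, ?_, ?_⟩
      · exact (le_iSup (fun S : {S : Finset I // S.card = m + 1} => DT N B S.1) ⟨S, hSc⟩) hbD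
      · rw [hxy, hbl]; group
      · rw [hlb]
        exact mul_mem (inv_mem (DT_le_K hSc hbD)) hyK
      · rw [hlb]
        refine mul_mem (inv_mem (Gen_mono ?_ hb)) hyD
        exact_mod_cast hSD
      · intro T hT
        rcases Finset.mem_insert.1 hT with rfl | hT'
        · exact hl
        · have hne : T ≠ S := fun he => hS (he ▸ hT')
          have h1 := (mem_DT.1 hbD).2 T (by rw [hSc, (hh T hT).2]) hne
          rw [hlb]
          exact mul_mem (inv_mem h1) (hy T hT')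
  obtain ⟨z, hz, y, hxy, hyK, hyD, hy⟩ := key (D.powersetCard (m + 1)) fun S hS =>
    Finset.mem_powersetCard.1 hS
  refine ⟨z, hz, y, ?_, hxy⟩
  have hyK' := mem_K.1 hyK
  rw [mem_K]
  refine ⟨hyK'.1, fun T hT => ?_⟩
  by_cases hTm : T.card ≤ m
  · exact hyK'.2 T hTm
  by_cases hTD : T ⊆ D
  · exact hy T (Finset.mem_powersetCard.2 ⟨hTD, by omega⟩)
  · refine step1 hB h hyD ?_
    rw [← Finset.coe_inter]
    refine hyK'.2 _ ?_
    have h1 : T ∩ D ⊂ T := by
      rw [Finset.ssubset_iff_subset_ne]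
      refine ⟨Finset.inter_subset_left, fun he => hTD ?_⟩
      rw [← he]
      exact Finset.inter_subset_right
    have := Finset.card_lt_card h1
    omega

end defs

section conj

variable {G I : Type} [Group G] {N : Subgroup G} {B : I → Subgroup G}

theorem Oth_sg (d : Dat N B) (g : G) (S : Set I) {x : G} (hx : x ∈ Oth N B S) :
    g * x * g⁻¹ ∈ Oth N B (sg d g '' S) := by
  have hM := d.nor
  have h1 : Oth N B S ≤ (Oth N B (sg d g '' S)).comap (MulAut.conj g).toMonoidHom := by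
    conv_lhs => rw [Oth]
    rw [Subgroup.closure_le]
    rintro _ ⟨j, hj, n, hn, b, hb, rfl⟩
    show g * (n * b * n⁻¹) * g⁻¹ ∈ Oth N B (sg d g '' S)
    obtain ⟨m, hm, h2⟩ := sg_spec d g j
    have h3 := (h2 b).1 hb
    have h4 := mem_Oth (S := sg d g '' S) (j := sg d g j) (fun ⟨k, hk, hkj⟩ => hj (sg_inj d g hkj ▸ hk))
      (N.mul_mem (hM.conj_mem n hn g) (N.inv_mem hm)) h3
    have h5 : g * n * g⁻¹ * m⁻¹ * (m * (g * b * g⁻¹) * m⁻¹) * (g * n * g⁻¹ * m⁻¹)⁻¹ =
      g * (n * b * n⁻¹) * g⁻¹ := by group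
    rwa [h5] at h4
  exact h1 hx

theorem sg_inv (d : Dat N B) (g : G) (i : I) : sg d g (sg d g⁻¹ i) = i := by
  rw [← sg_mul, mul_inv_cancel, sg_M d (one_mem N)]

open Classical in
theorem image_sg (d : Dat N B) (g : G) (T : Finset I) :
    (T.image (sg d g⁻¹)).image (sg d g) = T := by
  rw [Finset.image_image]
  have : (sg d g ∘ sg d g⁻¹) = id := funext fun i => sg_inv d g i
  rw [this, Finset.image_id]

theorem K_normal (d : Dat N B) (n : ℕ) : (K N B n).Normal := by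
  classical
  refine ⟨fun x hx g => ?_⟩
  rw [mem_K] at hx ⊢
  refine ⟨d.nor.conj_mem x hx.1 g, fun T hT => ?_⟩
  have h1 := Oth_sg d g _ (hx.2 (T.image (sg d g⁻¹)) (Finset.card_image_le.trans hT))
  rwa [← Finset.coe_image, image_sg] at h1

open Classical in
theorem DT_conj (d : Dat N B) (g : G) (S : Finset I) {x : G} (hx : x ∈ DT N B S) :
    g * x * g⁻¹ ∈ DT N B (S.image (sg d g)) := by
  rw [mem_DT] at hx ⊢
  refine ⟨d.nor.conj_mem x hx.1 g, fun T hT hne => ?_⟩
  have hinj : Function.Injective (sg d g) := fun i j h => sg_inj d g h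
  have hc : (S.image (sg d g)).card = S.card := Finset.card_image_of_injective S hinj
  have hT' : (T.image (sg d g⁻¹)).card ≤ S.card := Finset.card_image_le.trans (hT.trans hc.le)
  have hne' : T.image (sg d g⁻¹) ≠ S := by
    intro he
    apply hne
    rw [← image_sg d g T, he]
  have h0 := hx.2 (T.image (sg d g⁻¹)) hT' hne'
  have h1 := Oth_sg d g _ h0
  rwa [← Finset.coe_image, image_sg] at h1

theorem DT_comm {S S' : Finset I} (hc : S.card = S'.card) (hne : S ≠ S') {x y : G}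
    (hx : x ∈ DT N B S) (hy : y ∈ DT N B S') : (y * x)⁻¹ * (x * y) ∈ K N B S.card := by
  rw [mem_DT] at hx hy
  rw [mem_K]
  refine ⟨N.mul_mem (N.inv_mem (N.mul_mem hy.1 hx.1)) (N.mul_mem hx.1 hy.1), fun T hT => ?_⟩
  by_cases h : T = S
  · have h1 : y ∈ Oth N B (T : Set I) := hy.2 T (hT.trans hc.le) (fun h' => hne (h.symm.trans h'))
    have h1' : y⁻¹ ∈ Oth N B (T : Set I) := (Oth N B (T : Set I)).inv_mem h1
    have h2 : x⁻¹ * y⁻¹ * x ∈ Oth N B (T : Set I) := Oth_conj' (T : Set I) hx.1 h1'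
    have h3 : (y * x)⁻¹ * (x * y) = x⁻¹ * y⁻¹ * x * y := by group
    rw [h3]
    exact (Oth N B (T : Set I)).mul_mem h2 h1
  · have h1 : x ∈ Oth N B (T : Set I) := hx.2 T hT h
    have h2 : y⁻¹ * x * y ∈ Oth N B (T : Set I) := Oth_conj' (T : Set I) hy.1 h1
    have h3 : (y * x)⁻¹ * (x * y) = x⁻¹ * (y⁻¹ * x * y) := by group
    rw [h3]
    exact (Oth N B (T : Set I)).mul_mem ((Oth N B (T : Set I)).inv_mem h1) h2

end conj

end Pool.Agent.W5h2.GP
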